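import Mathlib
import Pool.Agent.H21.W.RoomIn
import Pool.Agent.H44.W.CloseDef
import Pool.Agent.H74.W.Tri6

set_option autoImplicit false
open Filter Topology Set

/-! # The S-property: final statement

`C : CD` coarse data of helper54, `n` tiles per cell (`n` even), `v = (x0, r)` a tile; the half row
`(x, r)`, `x0 ≤ x`, is deleted, the moving end is `eW (lt v)`. The walls of the room are layers of tiles of one
colour: `CB` below, `CL Y` at the left of the row `Y`, `CT` above, on the right `c0` below the row `r` and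
`!c0` above it (`crz`). Room graph of helper21: `SG (LR C n cr) (DR x0 r) (WR0 C n cr ∪ ω)`.

Walls in clockwise order, starting below the exit of the half row: `col C c0 k`, `-1 ≤ k ≤ H + 2`. The corner
`k` is between the walls `k` and `k + 1`, `-1 ≤ k ≤ H + 1`: `-1` = SE, `0` = foot of the left side, `0 < k < H` =
convex corner of the left side at the height `k`, `H` = upper end of the left side, `H + 1` = NE. It is a mark
if the two colours are different (`Mk`); then `nm C c0 n k` is the end of a strand of the room there: the side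
of the missing diagonal tile in the direction of the closed wall.

`Th C c0` : planar partial matching of the marks with three unmatched marks `x 0 > x 1 > x 2` (counterclockwise
order from the exit), no arc passes over an unmatched mark. `GT` : the room graph with the arcs as edges.
`FT C c0 θ n v = ∑ⱼ τ ^ j P(the moving end is joined to the mark x j)`. `StS` : the statement. -/

namespace Pool.Agent.H20.W

open Pool.Agent.H13.W Pool.Agent.H33.Q1 Pool.Agent.H21.W
open Pool.Agent.H54.W (CD)
open Pool.Agent.H44.W (WLim)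
open Pool.Agent.H74.W (tau)
open Pool.Agent.H75.Perc (Pr)

/-- colour of the right wall: `c0` below the row `r`, `!c0` above -/
def crz (c0 : Bool) (r : ℤ) : ℤ → Bool := fun y => if y < r then c0 else !c0

section

variable (C : CD) (c0 : Bool)

/-- colours of the walls, clockwise from the exit of the half row -/
def col (k : ℤ) : Bool :=
  if k < 0 then c0 else if k = 0 then C.CB else if k ≤ C.H then C.CL (k - 1)
  else if k = C.H + 1 then C.CT else !c0

/-- the corner `k` is a mark -/
def Mk (k : ℤ) : Prop := -1 ≤ k ∧ k ≤ C.H + 1 ∧ col C c0 k ≠ col C c0 (k + 1)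

/-- abscissa of the corner `k`, in cells -/
def qx (k : ℤ) : ℤ :=
  if k < 0 ∨ C.H < k then C.W else if k = 0 then C.A 0 else if k = C.H then C.A (C.H - 1)
  else min (C.A (k - 1)) (C.A k)

/-- ordinate of the corner `k`, in cells -/
def qy (k : ℤ) : ℤ := if k < 0 then 0 else if C.H < k then C.H else k

/-- the closed one of the two walls at the mark `k` is the ceiling (0), the floor (1), on the right (2), on the
left (3) -/
def wd (k : ℤ) : Fin 4 :=
  if k < 0 then (if col C c0 k = false then 2 else 1)
  else if k = 0 then (if col C c0 k = false then 1 else 3)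
  else if k < C.H then
    (if C.A (k - 1) < C.A k then (if col C c0 k = false then 3 else 0)
      else (if col C c0 k = false then 1 else 3))
  else if k = C.H then (if col C c0 k = false then 3 else 0)
  else (if col C c0 k = false then 0 else 2)

/-- side of the diagonal tile at the lattice point `(X, Y)` (tiles) in the direction of the ceiling (0),
floor (1), right (2), left (3) wall tile -/
def sdp (X Y : ℤ) (d : Fin 4) : ℤ × ℤ :=
  if d = 0 then eW (lt (X, Y)) else if d = 1 then eW (lt (X, Y - 1))
  else if d = 2 then eS (lt (X, Y)) else eS (lt (X - 1, Y))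

/-- **the named end** at the mark `k` -/
def nm (n k : ℤ) : ℤ × ℤ := sdp (n * qx C k) (n * qy C k) (wd C c0 k)

/-- **Planar partial matching of the marks** with three unmatched marks, seen from outside of the room. -/
structure Th where
  m : ℤ → ℤ
  x : Fin 3 → ℤ
  mm : ∀ k, Mk C c0 k → Mk C c0 (m k)
  inv : ∀ k, Mk C c0 k → m (m k) = k
  xm : ∀ j, Mk C c0 (x j)
  fx : ∀ k, Mk C c0 k → (m k = k ↔ ∃ j, k = x j)
  ord : x 2 < x 1 ∧ x 1 < x 0
  /-- two arcs do not cross -/
  nc : ∀ a b, Mk C c0 a → Mk C c0 b → a < b → b < m a → a < m b ∧ m b < m a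
  /-- no arc passes over an unmatched mark -/
  un : ∀ a j, Mk C c0 a → ¬ (a < x j ∧ x j < m a)

variable {C c0}

/-- the arcs as edges -/
def Th.G (θ : Th C c0) (n : ℤ) : SimpleGraph (ℤ × ℤ) :=
  SimpleGraph.fromRel fun a b => ∃ k, Mk C c0 k ∧ a = nm C c0 n k ∧ b = nm C c0 n (θ.m k)

variable (C c0)

/-- the room graph with the end `v` -/
noncomputable def GR (n : ℤ) (v : ℤ × ℤ) (ω : Finset (ℤ × ℤ)) : SimpleGraph (ℤ × ℤ) :=
  SG (LR C n (crz c0 v.2)) (DR v.1 v.2) (WR0 C n (crz c0 v.2) ∪ ω)

variable {C c0}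

/-- the room graph and the arcs -/
noncomputable def GT (θ : Th C c0) (n : ℤ) (v : ℤ × ℤ) (ω : Finset (ℤ × ℤ)) : SimpleGraph (ℤ × ℤ) :=
  GR C c0 n v ω ⊔ θ.G n

/-- **The value.** -/
noncomputable def FT (θ : Th C c0) (n : ℤ) (v : ℤ × ℤ) : ℂ :=
  ∑ j : Fin 3, tau ^ (j : ℕ) *
    (Pr (ER C n) (fun ω => (GT θ n v ω).Reachable (eW (lt v)) (nm C c0 n (θ.x j))) : ℂ)

variable (C)

/-- the interior of the room, in cells -/
def OmC : Set ℂ := interior {z : ℂ | ∃ Y : ℤ, 0 ≤ Y ∧ Y < C.H ∧ (Y : ℝ) ≤ z.im ∧ z.im ≤ Y + 1 ∧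
  (C.A Y : ℝ) ≤ z.re ∧ z.re ≤ C.W}

lemma OmC_open : IsOpen (OmC C) := isOpen_interior

end

/-- **The S-property.** -/
def StS : Prop := ∀ (C : CD) (c0 : Bool) (θ : Th C c0) (n : ℕ → ℤ), (∀ j, n j % 2 = 0) →
  Tendsto n atTop atTop → ∀ U : Ultrafilter ℕ, (U : Filter ℕ) ≤ atTop →
  ∃ g : ℂ → ℂ, DifferentiableOn ℂ g (OmC C) ∧ (∀ z ∈ OmC C, ‖g z‖ ≤ 1) ∧
    WLim (fun j => (n j : ℝ)) U (OmC C) (fun j => FT θ (n j)) g

end Pool.Agent.H20.W
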