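import Mathlib
import Pool.Agent.H31.W.NatZ
import Pool.Agent.H54.W.NatFT
import Pool.Agent.H33.W.PushC
import Pool.Agent.H93.W.VBridge
import Pool.Agent.H32.W.AbTrk

set_option autoImplicit false
open Finset

/-! # W-B: the values of the window

Canonical box of the room `C` at the scale `n` with the string in the row `r`: columns `bX1, …, bX2 - 1`, rows
`bY1, …, bY2 - 1`. `Zz` : its labels off the string. `Ph` : helper62's functional in this box. `Dz` : the window.
`nS` : the natural value of the world `p` with the walls of the groups `s` pushed out (helper31's `Nz`).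
`VS` : the line value of the deleted picture. `vS` : the line value at the rapidity number `N`.
`hI`, `vI` : the values for both parities at the scale `2 m`.
`LowC` : the coarse lower bound of the left side leaves one cell. -/

namespace Pool.Agent.H20.W

open Pool.Agent.Q1 (Ec)
open Pool.Agent.H33.Q1 (lt tt)
open Pool.Agent.H54.W (CD NE Win PsT)
open Pool.Agent.H44.W
open Pool.Agent.H42.Sp (Sd)
open Pool.Agent.H72.W.N (InB natc)
open Pool.Agent.H62.W (Phi ZS)
open Pool.Agent.H31.W (Nz)
open Pool.Agent.H33.W (negC)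
open Pool.Agent.H93.W (Fs rcol)
open Pool.Agent.H34.W (opw)
open Pool.Agent.H64.Q1 (wa)
open Pool.Agent.H32.W.Ab (uN)
open G4

/-- all colours negated if `q` -/
def xC (q : Bool) (C : CD) : CD := if q then negC C else C

/-- the walls of the four groups: left walls, right wall, ceilings, floors -/
def gSd : G4 → Sd
  | fo => .L
  | ce => .R
  | le => .C
  | ri => .F

section box

variable (C : CD) (n : ℤ) (c0 : Bool) (v : ℤ × ℤ)

/-- first column of the box -/
def bX1 : ℤ := n * C.LO - n

/-- the column after the last column of the box -/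
def bX2 (r : ℤ) : ℤ := n * C.W + n + if c0 then r % 2 else (r + 1) % 2

/-- first row of the box -/
def bY1 : ℤ := -n

/-- the row above the last row of the box -/
def bY2 : ℤ := n * C.H + n

/-- the labels of the box off the string from `v` to the right -/
noncomputable def Zz : Finset (ℤ × ℤ) := ZS (bX1 C n) (bX2 C n c0 v.2) (bY1 n) (bY2 C n) v.1 v.2

/-- the functional in the box -/
noncomputable def Ph (Ψ : (NE → NE → Prop) → ℂ) (w : Finset (ℤ × ℤ)) : ℂ :=
  Phi C n c0 v.1 v.2 (bX1 C n) (bX2 C n c0 v.2) (bY1 n) (bY2 C n) Ψ w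

/-- the window -/
def Dz (he : n % 2 = 0) (h8 : 8 ≤ n) (r : ℤ) : Win := C.win n he h8 (crz c0 r)

/-- **The natural value** of the world `p`, the walls of the groups `s` pushed out. -/
noncomputable def nS (he : n % 2 = 0) (h8 : 8 ≤ n) (Ψ : (NE → NE → Prop) → ℂ) (p : Bool) (s : Finset G4) : ℂ :=
  Nz (Ph C n c0 v Ψ) (Dz C n c0 he h8 v.2) p (s.image gSd) (Zz C n c0 v)

end box

open Classical in
/-- the natural open labels of the zone off the tiles of the window -/
noncomputable def Wz (D : Win) (Z : Finset (ℤ × ℤ)) : Finset (ℤ × ℤ) :=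
  Z.filter fun e => ¬ D.InZ (tt e).1 (tt e).2 ∧ D.fill (tt e).1 (tt e).2 = true

/-- **The line value of the deleted picture**: the line is at the position `τ`, the row `r` is deleted from the
column `s` to the wall tile (the functional `P` does not see the row `r` from `s` on). -/
noncomputable def VS (D : Win) (Wo : Finset (ℤ × ℤ)) (P : Finset (ℤ × ℤ) → ℂ) (τ : ℤ → ℤ) (a b c : ℂ)
    (r s : ℤ) : ℂ :=
  Ec (opw (fun q => D.wA τ a b c q.1 q.2)) (D.EJ τ \ Fs D r s) (fun ω => P (ω ∪ (rcol D r false).WJ τ Wo))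

/-- the position of the line: the left arc, the right wall -/
def tauP (D : Win) (p : Bool) : ℤ → ℤ := if p then fun _ => D.w else D.a

/-- **The line value** at the rapidity `π - u_N` of the vertical frame. -/
noncomputable def vS (C : CD) (n : ℤ) (c0 : Bool) (v : ℤ × ℤ) (he : n % 2 = 0) (h8 : 8 ≤ n)
    (Ψ : (NE → NE → Prop) → ℂ) (p : Bool) (N : ℕ) : ℂ :=
  VS (Dz C n c0 he h8 v.2) (Wz (Dz C n c0 he h8 v.2) (Zz C n c0 v)) (Ph C n c0 v Ψ)
    (tauP (Dz C n c0 he h8 v.2) p) (wa (Real.pi - uN N)) (wa (Real.pi - uN N + Real.pi / 2))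
    (wa (Real.pi - uN N - Real.pi / 2)) v.2 v.1

section inst

variable {C : CD} {c0 : Bool}

/-- **Natural values of both parities** at the scales `2 m`. -/
noncomputable def hI (θ : Th C c0) (m : ℕ → ℕ) (q p : Bool) (s : Finset G4) (j : ℕ) (v : ℤ × ℤ) : ℂ :=
  if h : 4 ≤ m j then nS (xC q C) (2 * m j) (c0 ^^ q) v (by omega) (by omega) (PsT θ) p s else 0

/-- **Line values of both parities** at the scales `2 m`. -/
noncomputable def vI (θ : Th C c0) (m : ℕ → ℕ) (q p : Bool) (j N : ℕ) (v : ℤ × ℤ) : ℂ :=
  if h : 4 ≤ m j then vS (xC q C) (2 * m j) (c0 ^^ q) v (by omega) (by omega) (PsT θ) p N else 0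

/-- the lower bound leaves one cell -/
def LowC (C : CD) : Prop := ∀ Y, 0 ≤ Y → Y < C.H → C.LO + 1 ≤ C.A Y

/-- lower bound moved by one cell -/
def lowC (C : CD) : CD := { C with
  LO := C.LO - 1
  lo := fun Y h1 h2 => by have := C.lo Y h1 h2; omega }

lemma lowC_low : LowC (lowC C) := fun Y h1 h2 => by
  have := C.lo Y h1 h2
  change C.LO - 1 + 1 ≤ C.A Y
  omega

/-- the matching for the other lower bound -/
def Th.low (θ : Th C c0) : Th (lowC C) c0 where
  m := θ.m
  x := θ.x
  mm := θ.mm
  inv := θ.inv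
  xm := θ.xm
  fx := θ.fx
  ord := θ.ord
  nc := θ.nc
  un := θ.un

end inst

end Pool.Agent.H20.W
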