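import Mathlib
import Pool.Agent.H20.W.SDef
import Pool.Agent.H61.W.WSum
import Pool.Agent.H95.W.Fin2

set_option autoImplicit false
open Filter Topology Set

/-! # W-B, top: the S-property `StS` from the windows

`StSm` : the statement for the scales `2 m j`, `m : ℕ → ℕ`. `SData` : everything that the closing theorem
`fin_fine` of helper95 needs for one room and one planar matching. `stS_of` : `StS` from `SData`. -/

namespace Pool.Agent.H20.W

open Pool.Agent.Q1.M4 (lat)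
open Pool.Agent.Q1.M6f.Glue (uu rr)
open Pool.Agent.H44.FM.WG (Sh)
open Pool.Agent.H54.W (CD)
open Pool.Agent.H44.W
open Pool.Agent.H95.W.BrS
open Pool.Agent.H15.W (FineVP CaseV)
open Pool.Agent.H49.W (ClsM)
open G4

/-- change of the scales and of the functions on a set of the filter -/
lemma WLim.congr_ev {R R' : ℕ → ℝ} {F : Filter ℕ} {Ω : Set ℂ} {f f' : ℕ → ℤ × ℤ → ℂ} {g : ℂ → ℂ}
    (h : WLim R F Ω f g) (hR : ∀ᶠ j in F, R' j = R j ∧ f' j = f j) : WLim R' F Ω f' g := by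
  intro K hK hKc ε hε
  obtain ⟨δ0, hδ0, h1⟩ := h K hK hKc ε hε
  refine ⟨δ0, hδ0, fun δ a b => ?_⟩
  filter_upwards [h1 δ a b, hR] with j h2 h3 v hv
  rw [h3.1] at hv ⊢
  rw [h3.2]
  exact h2 v hv

/-- The S-property for the scales `2 m j`. -/
def StSm : Prop := ∀ (C : CD) (c0 : Bool) (θ : Th C c0) (m : ℕ → ℕ) (U : Ultrafilter ℕ),
  Tendsto m U atTop → ∃ g : ℂ → ℂ, DifferentiableOn ℂ g (OmC C) ∧ (∀ z ∈ OmC C, ‖g z‖ ≤ 1) ∧
    WLim (fun j => ((2 * m j : ℕ) : ℝ)) U (OmC C) (fun j => FT θ ((2 * m j : ℕ) : ℤ)) g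

theorem stS_of_m (h : StSm) : StS := by
  intro C c0 θ n he hn U hU
  have hn' : Tendsto n U atTop := hn.mono_left hU
  have hm : Tendsto (fun j => (n j / 2).toNat) U atTop := by
    rw [tendsto_atTop]
    intro b
    filter_upwards [hn'.eventually_ge_atTop (2 * (b : ℤ))] with j hj
    omega
  obtain ⟨g, hg, hb, hW⟩ := h C c0 θ (fun j => (n j / 2).toNat) U hm
  refine ⟨g, hg, hb, WLim.congr_ev hW ?_⟩
  filter_upwards [hn'.eventually_ge_atTop 0] with j hj
  have e1 : ((2 * (n j / 2).toNat : ℕ) : ℤ) = n j := by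
    have := he j
    push_cast
    omega
  refine ⟨?_, ?_⟩
  · have : ((2 * (n j / 2).toNat : ℕ) : ℝ) = (((2 * (n j / 2).toNat : ℕ) : ℤ) : ℝ) := by push_cast; rfl
    rw [this, e1]
  · rw [e1]

/-- **Everything that the closing theorem needs** for the room `C`, the colour `c0`, the matching `θ` and the
scales `2 m j`. -/
structure SData (P : ℝ → ℕ → CaseV → Prop) {C : CD} {c0 : Bool} (θ : Th C c0) (m : ℕ → ℕ)
    (U : Ultrafilter ℕ) where
  h : Bool → Bool → Finset G4 → ℕ → ℤ × ℤ → ℂ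
  V : Bool → Bool → ℕ → ℕ → ℤ × ℤ → ℂ
  /-- charts I and II -/
  seq : ∀ q, Seq (ClsM P 1) (fun j => 2 * m j) U (OmC C) arc4 hd4 (h q) (V q)
  /-- chapters A and B -/
  ab : ∀ q, BAb (fun j => ((2 * m j : ℕ) : ℝ)) U (OmC C) fun p j n v => V q p j n (v - dSh p)
  bdd : ∀ q, Bdd (fun j => ((2 * m j : ℕ) : ℝ)) U (OmC C) 1 (h q false ∅)
  s1 : ∀ q, LA (fun j => ((2 * m j : ℕ) : ℝ)) U (OmC C) (h q false {fo}) (h q true {ce})
  pp : ∀ q, LA (fun j => ((2 * m j : ℕ) : ℝ)) U (OmC C) (Sh rr (h q true ∅)) (h (!q) false ∅)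
  s2 : ∀ q, LA (fun j => ((2 * m j : ℕ) : ℝ)) U (OmC C) (Sh uu (h q false {ri})) (h (!q) false {le})
  /-- the value of the room is the natural value of the first window -/
  ft : ∀ K ⊆ OmC C, IsCompact K → ∀ᶠ j in (U : Filter ℕ), ∀ v : ℤ × ℤ,
    lat v / (((2 * m j : ℕ) : ℝ) : ℂ) ∈ K → FT θ ((2 * m j : ℕ) : ℤ) v = h false false ∅ j v

/-- **The S-property.** -/
theorem stS_of {P : ℝ → ℕ → CaseV → Prop} (hP : FineVP P)
    (H : ∀ (C : CD) (c0 : Bool) (θ : Th C c0) (m : ℕ → ℕ) (U : Ultrafilter ℕ), Tendsto m U atTop →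
      Nonempty (SData P θ m U)) : StS := by
  refine stS_of_m fun C c0 θ m U hm => ?_
  obtain ⟨D⟩ := H C c0 θ m U hm
  obtain ⟨g, hg, hb, hW⟩ := fin_fine hP zero_le_one (OmC_open C) zero_le_one hm D.seq D.ab D.bdd D.s1 D.pp D.s2
  refine ⟨g, hg, hb, ?_⟩
  have hR : Tendsto (fun j => ((2 * m j : ℕ) : ℝ)) U atTop :=
    tendsto_natCast_atTop_atTop.comp (tendsto_atTop_mono (fun j => by omega) hm)
  refine Pool.Agent.H61.W.WLim.congr_small hR (OmC_open C) (hW false) fun K hK hKc ε hε => ?_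
  filter_upwards [D.ft K hK hKc] with j hj v hv
  rw [hj v hv, sub_self, norm_zero]
  exact hε.le

end Pool.Agent.H20.W
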