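import Mathlib
import Pool.Agent.H20.W.InstD
import Pool.Agent.H95.W.BrS4
import Pool.Agent.H20.W.Top

set_option autoImplicit false
set_option linter.constructorNameAsVariable false
open Filter Topology Set

/-! # W-B: the S-property from the leaves

`PsT_le`, `PsT_only`, `PsT_neg` : the functional of a planar matching. `StPT P p` : line response of the world `p`
(charts I and II). `StAB` : chapters A and B. `StFT` : the value of the room is the natural value. `StNat` : the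
relations between the natural values. `stS_top` : all of them give `StS`. -/

namespace Pool.Agent.H20.W

open Pool.Agent.Q1 (Ec)
open Pool.Agent.Q1.M4 (lat)
open Pool.Agent.Q1.M6f.Glue (uu rr)
open Pool.Agent.H44.FM.WG (Sh)
open Pool.Agent.H54.W (CD NE Win PsT StT neK)
open Pool.Agent.H44.W
open Pool.Agent.H33.W (negC ok_neg Only)
open Pool.Agent.H74.W (tau)
open Pool.Agent.H95.W.BrS
open Pool.Agent.H15.W (FineVP CaseV orV)
open Pool.Agent.H49.W (ClsM)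
open G4

variable {C : CD} {c0 : Bool}

/-! ### The functional -/

lemma tau_sum : 1 + tau + tau ^ 2 = 0 := by
  rw [Pool.Agent.H74.W.tau_sq, Pool.Agent.H74.W.tau_eq]
  linear_combination Pool.Agent.H74.W.om_sum

lemma norm_tau : ‖tau‖ = 1 := by
  have h : ‖tau‖ ^ 3 = 1 := by rw [← norm_pow, Pool.Agent.H74.W.tau_cube, norm_one]
  exact (pow_eq_one_iff_of_nonneg (norm_nonneg _) (by norm_num)).1 h

/-- a partial sum of the powers of `τ` -/
lemma psum_le (a b c : ℂ) (ha : a = 0 ∨ a = 1) (hb : b = 0 ∨ b = 1) (hc : c = 0 ∨ c = 1) :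
    ‖a + tau * b + tau ^ 2 * c‖ ≤ 1 := by
  have h1 := norm_tau
  have h2 : ‖tau ^ 2‖ = 1 := by rw [norm_pow, h1, one_pow]
  have e := tau_sum
  rcases ha with rfl | rfl <;> rcases hb with rfl | rfl <;> rcases hc with rfl | rfl
  · simp
  · simp [h1]
  · simp [h1]
  · rw [show (0 : ℂ) + tau * 1 + tau ^ 2 * 1 = -1 by linear_combination e, norm_neg, norm_one]
  · simp
  · rw [show (1 : ℂ) + tau * 0 + tau ^ 2 * 1 = -tau by linear_combination e, norm_neg, h1]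
  · rw [show (1 : ℂ) + tau * 1 + tau ^ 2 * 0 = -tau ^ 2 by linear_combination e, norm_neg, h2]
  · rw [show (1 : ℂ) + tau * 1 + tau ^ 2 * 1 = 0 by linear_combination e, norm_zero]
    exact zero_le_one

/-- **The functional is bounded by one.** -/
lemma PsT_le (θ : Th C c0) (R : NE → NE → Prop) : ‖PsT θ R‖ ≤ 1 := by
  classical
  unfold PsT
  rw [Fin.sum_univ_three]
  have k : ∀ p : Prop, ∀ [Decidable p], (if p then (1 : ℂ) else 0) = 0 ∨ (if p then (1 : ℂ) else 0) = 1 := by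
    intro p _
    by_cases h : p
    · right; rw [if_pos h]
    · left; rw [if_neg h]
  have := psum_le _ _ _ (k (Relation.ReflTransGen (StT θ R) NE.z (neK C (θ.x 0))))
    (k (Relation.ReflTransGen (StT θ R) NE.z (neK C (θ.x 1))))
    (k (Relation.ReflTransGen (StT θ R) NE.z (neK C (θ.x 2))))
  simpa using this

/-- the functional sees only the names which exist -/
lemma PsT_only (θ : Th C c0) : Only C c0 (PsT θ) := by
  intro R R' h
  rw [← Pool.Agent.H54.W.PsT_ok θ R, ← Pool.Agent.H54.W.PsT_ok θ R']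
  congr 1
  funext a b
  apply propext
  constructor
  · rintro ⟨h1, h2, h3⟩
    exact ⟨h1, h2, (h a b h1 h2).1 h3⟩
  · rintro ⟨h1, h2, h3⟩
    exact ⟨h1, h2, (h a b h1 h2).2 h3⟩

lemma col_neg (k : ℤ) : col (negC C) (!c0) k = !col C c0 k := by
  unfold col negC
  simp only
  split_ifs <;> rfl

lemma Mk_neg (k : ℤ) : Mk (negC C) (!c0) k ↔ Mk C c0 k := by
  unfold Mk
  rw [col_neg, col_neg]
  change -1 ≤ k ∧ k ≤ C.H + 1 ∧ _ ↔ _
  have e : ((!col C c0 k) ≠ !col C c0 (k + 1)) ↔ col C c0 k ≠ col C c0 (k + 1) := by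
    cases col C c0 k <;> cases col C c0 (k + 1) <;> decide
  rw [e]

/-- the matching for the negated colours -/
def Th.neg (θ : Th C c0) : Th (negC C) (!c0) where
  m := θ.m
  x := θ.x
  mm := fun k hk => (Mk_neg _).2 (θ.mm k ((Mk_neg k).1 hk))
  inv := fun k hk => θ.inv k ((Mk_neg k).1 hk)
  xm := fun j => (Mk_neg _).2 (θ.xm j)
  fx := fun k hk => θ.fx k ((Mk_neg k).1 hk)
  ord := θ.ord
  nc := fun a b ha hb => θ.nc a b ((Mk_neg a).1 ha) ((Mk_neg b).1 hb)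
  un := fun a j ha => θ.un a j ((Mk_neg a).1 ha)

/-- **The functional of the negated colours** -/
lemma PsT_neg (θ : Th C c0) : PsT θ.neg = PsT θ := by
  funext R
  have e : StT θ.neg R = StT θ R := by
    funext a b
    unfold StT
    apply propext
    refine or_congr ?_ ?_
    · rw [ok_neg, ok_neg]
    · exact exists_congr fun k => and_congr (Mk_neg k) Iff.rfl
  unfold PsT
  rw [e]
  rfl

lemma negC_negC : negC (negC C) = C := by
  unfold negC
  obtain ⟨H, W, LO, A, CL, CB, CT, h1, h2, h3, h4⟩ := C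
  simp only [Bool.not_not]

lemma OmC_neg : OmC (negC C) = OmC C := rfl

lemma OmC_xC (q : Bool) : OmC (xC q C) = OmC C := by
  cases q <;> rfl

lemma lowC_neg (h : LowC C) : LowC (negC C) := h

/-! ### The natural values -/

lemma nS_le {n : ℤ} {v : ℤ × ℤ} {he : n % 2 = 0} {h8 : 8 ≤ n} {Ψ : (NE → NE → Prop) → ℂ}
    (hΨ : ∀ R, ‖Ψ R‖ ≤ 1) (p : Bool) (s : Finset G4) : ‖nS C n c0 v he h8 Ψ p s‖ ≤ 1 := by
  unfold nS Pool.Agent.H31.W.Nz
  refine (Pool.Agent.Q1.M6e.Ec_norm_le (C := 1 / 2) (M := 1) (fun _ _ => by norm_num)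
    (fun _ _ => by norm_num) (by norm_num) fun w _ => ?_).trans (by norm_num)
  exact hΨ _

lemma hI_le (θ : Th C c0) (m : ℕ → ℕ) (q p : Bool) (s : Finset G4) (j : ℕ) (v : ℤ × ℤ) :
    ‖hI θ m q p s j v‖ ≤ 1 := by
  unfold hI
  split_ifs
  · exact nS_le (PsT_le θ) p s
  · rw [norm_zero]; exact zero_le_one

lemma hI_true (θ : Th C c0) (m : ℕ → ℕ) : hI θ m true = hI θ.neg m false := by
  funext p s j v
  unfold hI xC
  rw [PsT_neg, Bool.xor_true, Bool.xor_false]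
  rfl

lemma vI_true (θ : Th C c0) (m : ℕ → ℕ) : vI θ m true = vI θ.neg m false := by
  funext p j N v
  unfold vI xC
  rw [PsT_neg, Bool.xor_true, Bool.xor_false]
  rfl

/-! ### The other lower bound -/

lemma RP_low (n x y : ℤ) : Pool.Agent.H21.W.RP (lowC C) n x y ↔ Pool.Agent.H21.W.RP C n x y := Iff.rfl

lemma LR_low (n : ℤ) (cr : ℤ → Bool) : Pool.Agent.H21.W.LR (lowC C) n cr = Pool.Agent.H21.W.LR C n cr := rfl

lemma ER_low {n : ℤ} (hn : 0 < n) : Pool.Agent.H21.W.ER (lowC C) n = Pool.Agent.H21.W.ER C n := by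
  ext e
  constructor
  · intro he
    obtain ⟨x, y, rfl⟩ := Pool.Agent.H74.R45.exists_lt (Pool.Agent.H21.W.odd_ER he)
    rw [Pool.Agent.H21.W.mem_ER hn] at he ⊢
    exact he
  · intro he
    obtain ⟨x, y, rfl⟩ := Pool.Agent.H74.R45.exists_lt (Pool.Agent.H21.W.odd_ER he)
    rw [Pool.Agent.H21.W.mem_ER hn] at he ⊢
    exact he

lemma WR0_odd {n : ℤ} {cr : ℤ → Bool} {e : ℤ × ℤ} (he : e ∈ Pool.Agent.H21.W.WR0 C n cr) : (e.1 + e.2) % 2 = 1 := by
  unfold Pool.Agent.H21.W.WR0 at he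
  simp only [Finset.mem_image] at he
  obtain ⟨t, -, rfl⟩ := he
  exact Pool.Agent.H33.Q1.lt_odd t

lemma WR0_low {n : ℤ} {cr : ℤ → Bool} (hn : 0 < n) :
    Pool.Agent.H21.W.WR0 (lowC C) n cr = Pool.Agent.H21.W.WR0 C n cr := by
  ext e
  constructor
  · intro he
    obtain ⟨x, y, rfl⟩ := Pool.Agent.H74.R45.exists_lt (WR0_odd he)
    rw [Pool.Agent.H21.W.mem_WR0 hn] at he ⊢
    exact he
  · intro he
    obtain ⟨x, y, rfl⟩ := Pool.Agent.H74.R45.exists_lt (WR0_odd he)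
    rw [Pool.Agent.H21.W.mem_WR0 hn] at he ⊢
    exact he

lemma GT_low (θ : Th C c0) {n : ℤ} (hn : 0 < n) (v : ℤ × ℤ) (ω : Finset (ℤ × ℤ)) :
    GT θ.low n v ω = GT θ n v ω := by
  unfold GT GR
  rw [WR0_low hn]
  rfl

lemma FT_low (θ : Th C c0) {n : ℤ} (hn : 0 < n) (v : ℤ × ℤ) : FT θ.low n v = FT θ n v := by
  unfold FT
  rw [ER_low hn]
  simp only [GT_low θ hn]
  rfl

lemma OmC_low : OmC (lowC C) = OmC C := rfl

/-! ### The leaves -/

/-- **Line response of the world `p`** for the functional `Ψ`. -/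
def PTs (P : ℝ → ℕ → CaseV → Prop) (C : CD) (c0 : Bool) (Ψ : (NE → NE → Prop) → ℂ) (p : Bool) : Prop :=
  ∀ K ⊆ OmC C, IsCompact K → ∃ η0 > 0, ∀ η : ℝ, 0 < η → η ≤ η0 → ∃ C1 L c : ℝ, 0 ≤ L ∧ 0 < c ∧
    ∃ m1 : ℕ, ∀ m : ℕ, m1 ≤ m → ∀ (he : (2 * (m : ℤ)) % 2 = 0) (h8 : 8 ≤ 2 * (m : ℤ)) (v : ℤ × ℤ),
    lat v / (((2 * m : ℕ) : ℝ) : ℂ) ∈ K → ∃ (σ : Type) (y : σ → ModG G4),
      PtD C1 (L * (1 / ((2 * m : ℕ) : ℝ)) ^ (1 + c)) (arc4 p) hd4
        (fun s => nS C (2 * m) c0 v he h8 Ψ p s) (fun N => vS C (2 * m) c0 v he h8 Ψ p N) y ∧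
      ∀ i, ClsM P 1 η (2 * m) (y i)

/-- **Charts I (`p = false`) and II (`p = true`).** -/
def StPT (P : ℝ → ℕ → CaseV → Prop) (p : Bool) : Prop :=
  ∀ C : CD, LowC C → ∀ (c0 : Bool) (θ : Th C c0), PTs P C c0 (PsT θ) p

/-- **Chapters A and B.** -/
def StAB : Prop := ∀ C : CD, LowC C → ∀ (c0 : Bool) (θ : Th C c0) (m : ℕ → ℕ) (U : Ultrafilter ℕ),
  Tendsto m U atTop → BAb (fun j => ((2 * m j : ℕ) : ℝ)) U (OmC C)
    (fun p j N v => vI θ m false p j N (v - dSh p))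

/-- **The value of the room is the natural value.** -/
def StFT : Prop := ∀ C : CD, LowC C → ∀ (c0 : Bool) (θ : Th C c0), ∀ K ⊆ OmC C, IsCompact K → ∀ ε > 0,
  ∃ m1 : ℕ, ∀ m : ℕ, m1 ≤ m → ∀ (he : (2 * (m : ℤ)) % 2 = 0) (h8 : 8 ≤ 2 * (m : ℤ)) (v : ℤ × ℤ),
    lat v / (((2 * m : ℕ) : ℝ) : ℂ) ∈ K →
    ‖FT θ (2 * m) v - nS C (2 * m) c0 v he h8 (PsT θ) false ∅‖ ≤ ε

/-- **The relations between the natural values.** -/
def StNat : Prop := ∀ C : CD, LowC C → ∀ (c0 : Bool) (θ : Th C c0) (m : ℕ → ℕ) (U : Ultrafilter ℕ),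
  Tendsto m U atTop →
  (∀ q, LA (fun j => ((2 * m j : ℕ) : ℝ)) U (OmC C) (hI θ m q false {fo}) (hI θ m q true {ce})) ∧
  (∀ q, LA (fun j => ((2 * m j : ℕ) : ℝ)) U (OmC C) (Sh rr (hI θ m q true ∅)) (hI θ m (!q) false ∅)) ∧
  ∀ q, LA (fun j => ((2 * m j : ℕ) : ℝ)) U (OmC C) (Sh uu (hI θ m q false {ri})) (hI θ m (!q) false {le})

/-! ### The top -/

lemma ClsM.mono' {P P' : ℝ → ℕ → CaseV → Prop} (h : ∀ η R x, P η R x → P' η R x) {M η : ℝ} {R : ℕ}
    {y : ModG G4} (hy : ClsM P M η R y) : ClsM P' M η R y := by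
  obtain ⟨x, gr, h1, h2, h3⟩ := hy
  exact ⟨x, gr, h _ _ _ h1, h2, h3⟩

lemma StPT.mono {P P' : ℝ → ℕ → CaseV → Prop} (h : ∀ η R x, P η R x → P' η R x) {p : Bool}
    (H : StPT P p) : StPT P' p := by
  intro C hC c0 θ K hK hKc
  obtain ⟨η0, h0, H0⟩ := H C hC c0 θ K hK hKc
  refine ⟨η0, h0, fun η e1 e2 => ?_⟩
  obtain ⟨C1, L, c, hL, hc, m1, H1⟩ := H0 η e1 e2
  refine ⟨C1, L, c, hL, hc, m1, fun m hm he h8 v hv => ?_⟩
  obtain ⟨σ, y, k1, k2⟩ := H1 m hm he h8 v hv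
  exact ⟨σ, y, k1, fun i => ClsM.mono' h (k2 i)⟩

lemma seq_hI {P : ℝ → ℕ → CaseV → Prop} {θ : Th C c0} (H : ∀ p, PTs P C c0 (PsT θ) p) {m : ℕ → ℕ}
    {U : Ultrafilter ℕ} (hm : Tendsto m U atTop) :
    Seq (ClsM P 1) (fun j => 2 * m j) U (OmC C) arc4 hd4 (hI θ m false) (vI θ m false) := by
  have hR : Tendsto (fun j => 2 * m j) U atTop := tendsto_atTop_mono (fun j => by omega) hm
  refine seq_of hR fun K hK hKc => ?_
  obtain ⟨η0, a0, H0⟩ := H false K hK hKc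
  obtain ⟨η1, a1, H1⟩ := H true K hK hKc
  refine ⟨min η0 η1, lt_min a0 a1, fun p => ?_⟩
  obtain ⟨C1, L, c, hL, hc, m1, H2⟩ : ∃ C1 L c : ℝ, 0 ≤ L ∧ 0 < c ∧
    ∃ m1 : ℕ, ∀ m : ℕ, m1 ≤ m → ∀ (he : (2 * (m : ℤ)) % 2 = 0) (h8 : 8 ≤ 2 * (m : ℤ)) (v : ℤ × ℤ),
    lat v / (((2 * m : ℕ) : ℝ) : ℂ) ∈ K → ∃ (σ : Type) (y : σ → ModG G4),
      PtD C1 (L * (1 / ((2 * m : ℕ) : ℝ)) ^ (1 + c)) (arc4 p) hd4
        (fun s => nS C (2 * m) c0 v he h8 (PsT θ) p s) (fun N => vS C (2 * m) c0 v he h8 (PsT θ) p N) y ∧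
      ∀ i, ClsM P 1 (min η0 η1) (2 * m) (y i) := by
    cases p
    · exact H0 _ (lt_min a0 a1) (min_le_left _ _)
    · exact H1 _ (lt_min a0 a1) (min_le_right _ _)
  refine ⟨C1, L, c, hL, hc, max (2 * m1) 8, fun j hj v hv => ?_⟩
  have k1 : m1 ≤ m j := by have := le_max_left (2 * m1) 8; omega
  have k2 : 4 ≤ m j := by have := le_max_right (2 * m1) 8; omega
  obtain ⟨σ, y, l1, l2⟩ := H2 (m j) k1 (by omega) (by omega) v hv
  refine ⟨σ, y, ?_, l2⟩
  have e1 : (fun s => hI θ m false p s j v) =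
      fun s => nS C (2 * m j) c0 v (by omega) (by omega) (PsT θ) p s := by
    funext s
    unfold hI xC
    rw [dif_pos k2, Bool.xor_false]
    rfl
  have e2 : (fun N => vI θ m false p j N v) =
      fun N => vS C (2 * m j) c0 v (by omega) (by omega) (PsT θ) p N := by
    funext N
    unfold vI xC
    rw [dif_pos k2, Bool.xor_false]
    rfl
  rw [e1, e2]
  exact l1

/-- **The S-property from the leaves.** -/
theorem stS_top {P : ℝ → ℕ → CaseV → Prop} (hP : FineVP P) (h0 : StPT P false) (h1 : StPT P true)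
    (hab : StAB) (hft : StFT) (hn : StNat) : StS := by
  refine stS_of_m fun C c0 θ m U hm => ?_
  have hL : LowC (lowC C) := lowC_low
  set θ' := θ.low with hθ'
  obtain ⟨n1, n2, n3⟩ := hn (lowC C) hL c0 θ' m U hm
  have hR : Tendsto (fun j => ((2 * m j : ℕ) : ℝ)) U atTop :=
    tendsto_natCast_atTop_atTop.comp (tendsto_atTop_mono (fun j => by omega) hm)
  have hs : ∀ q, Seq (ClsM P 1) (fun j => 2 * m j) U (OmC (lowC C)) arc4 hd4 (hI θ' m q) (vI θ' m q) := by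
    intro q
    cases q
    · exact seq_hI (fun p => by cases p; exacts [h0 _ hL _ θ', h1 _ hL _ θ']) hm
    · rw [hI_true, vI_true]
      exact seq_hI (C := negC (lowC C)) (fun p => by
        cases p; exacts [h0 _ (lowC_neg hL) _ θ'.neg, h1 _ (lowC_neg hL) _ θ'.neg]) hm
  have hb : ∀ q, BAb (fun j => ((2 * m j : ℕ) : ℝ)) U (OmC (lowC C))
      fun p j N v => vI θ' m q p j N (v - dSh p) := by
    intro q
    cases q
    · exact hab _ hL _ θ' m U hm
    · rw [vI_true]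
      exact hab _ (lowC_neg hL) _ θ'.neg m U hm
  obtain ⟨g, hg, hbd, hW⟩ := fin_fine hP zero_le_one (OmC_open (lowC C)) zero_le_one hm hs hb
    (fun q K _ _ => Filter.Eventually.of_forall fun j v _ => hI_le θ' m q false ∅ j v) n1 n2 n3
  refine ⟨g, hg, hbd, ?_⟩
  refine Pool.Agent.H61.W.WLim.congr_small hR (OmC_open C) (hW false) fun K hK hKc ε hε => ?_
  obtain ⟨m1, H1⟩ := hft (lowC C) hL c0 θ' K hK hKc ε hε
  filter_upwards [hm.eventually_ge_atTop m1, hm.eventually_ge_atTop 4] with j a1 a2 v hv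
  have key := H1 (m j) a1 (by omega) (by omega) v hv
  have e1 : hI θ' m false false ∅ j v =
      nS (lowC C) (2 * m j) c0 v (by omega) (by omega) (PsT θ') false ∅ := by
    unfold hI xC
    rw [dif_pos a2, Bool.xor_false]
    rfl
  have e2 : ((2 * m j : ℕ) : ℤ) = 2 * (m j : ℤ) := by push_cast; rfl
  rw [e1, e2, ← FT_low θ (by omega), norm_sub_rev]
  exact key

end Pool.Agent.H20.W
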