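import Mathlib
import Pool.Agent.H95.W.SeqI
import Pool.Agent.H60.W.BdI
import Pool.Agent.H44.W.StAB
import Pool.Agent.H32.W.BdW

set_option autoImplicit false
open Finset

/-! # Uniform bound of the line values on the left arc

`VS_lineW` : the line value of the world `false` for arbitrary weights. `bd_I` : the bound for one window.
`bdV_false` : `BdV C c0 Ψ false`. -/

namespace Pool.Agent.H20.W.BI

open Pool.Agent.Q1 (Ec Ec_congr)
open Pool.Agent.Q1.M4 (lat)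
open Pool.Agent.H75.Perc (IsUnit4)
open Pool.Agent.H33.Q1 (lt tt tt_lt lt_odd)
open Pool.Agent.H54.W (Win CD NE)
open Pool.Agent.H54.W.Win
open Pool.Agent.H72.W.N hiding TA mem_TA TB mem_TB
open Pool.Agent.H42.Sp (Sd Ix kt rt)
open Pool.Agent.H13.R45 (ev gp)
open Pool.Agent.H74.R45 (exists_lt)
open Pool.Agent.H34.W.Lin
open Pool.Agent.H34.W (opw)
open Pool.Agent.H62.W (ZS mem_ZS odd_ZS ZoneG PhiG zone_Phi Phi)
open Pool.Agent.H22.W.MskI (StrFar BoxL)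
open Pool.Agent.H49.W (Leaf)
open Pool.Agent.H93.W (Fs mem_Fs rcol)
open Pool.Agent.H42.W (VF Tog)
open Pool.Agent.H15.W (TotV CaseV)
open Pool.Agent.H64.Q1 (wa)
open Pool.Agent.H20.Q1 (Nr)
open Pool.Agent.H20.W
open Pool.Agent.H60.W.BI (BdVP bdVP_of)
open Pool.Agent.H32.W.Bd (WOk wok_rapV)
open Pool.Agent.H95.W (CoarseRC Gd gd_K)
open Pool.Agent.H95.W.N
open Pool.Agent.H95.W.SI
open Pool.Agent.H31.W (ONat)
open Pool.Agent.Q1.M6e (Ec_norm_le)
open Pool.Agent.Q1.M6e.Wn (LW mW)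
open Pool.Agent.H44.W (vU BdV)

/-! ### The weights -/

/-- a weight and its complement are at most `26` -/
def B26 (w : ℂ) : Prop := ‖w‖ ≤ 26 ∧ ‖1 - w‖ ≤ 26

lemma B26.sym {w : ℂ} (h : B26 w) : B26 (1 - w) := ⟨h.2, by rw [sub_sub_cancel]; exact h.1⟩

lemma B26.of {w : ℂ} (h : ‖w‖ ≤ 25) : B26 w := by
  refine ⟨by linarith, (norm_sub_le _ _).trans ?_⟩
  rw [norm_one]; linarith

lemma B26.mul {w v : ℂ} (h : ‖w‖ ≤ 5) (h' : ‖v‖ ≤ 5) : B26 (w * v) :=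
  B26.of (by
    rw [norm_mul]
    have := norm_nonneg v
    have := norm_nonneg w
    nlinarith)

lemma B26.wal {x y : ℤ} {w : ℂ} (h : B26 w) : B26 (wal x y w) := by
  unfold Pool.Agent.H54.W.Win.wal
  split_ifs
  · exact h
  · exact h.sym

theorem qJ_26 {D : Win} {τ : ℤ → ℤ} {θ : ℝ} {a b c : ℂ} (h : WOk θ a b c) (e : ℤ × ℤ) :
    B26 (D.qJ τ a b c e) := by
  have k0 : ∀ w : ℂ, ‖w‖ ≤ 5 → B26 w := fun w hw => B26.of (by linarith)
  have k1 : B26 (1 - b) := k0 _ h.b1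
  have k2 : B26 (1 - c) := k0 _ h.c1
  have k3 : B26 a := k0 _ h.a0
  have k4 : B26 (1 - (1 - a) * b) := (B26.mul h.a1 h.b0).sym
  have k5 : B26 ((1 - c) * a) := B26.mul h.c1 h.a0
  have k8 : B26 (1 / 2 : ℂ) := B26.of (by norm_num)
  unfold Win.qJ
  refine B26.wal ?_
  unfold Win.wA
  split_ifs <;> first
    | exact k1
    | exact k2
    | exact k3
    | exact k4
    | exact k5
    | exact k8

/-! ### The line value -/

section line

variable {D : Win} {P : Finset (ℤ × ℤ) → ℂ} {X1 X2 Y1 Y2 x0 r : ℤ} {O : OutB D}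
  {ι : Type} [DecidableEq ι] {B : Finset (ℤ × ℤ)} {fm : ℤ × ℤ → ι} {co : ι → Bool}

/-- **The line value of the world `false`**, arbitrary weights. -/
theorem VS_lineW (hP : LocZ P X1 X2 Y1 Y2 x0 r) (hO : O.Wo = Wf D (ZS X1 X2 Y1 Y2 x0 r)) (hw : x0 ≤ D.w)
    (hl : ∀ k ∈ Tlf D false, Leaf P (ev k.2) (gp k.2)) (hB : B ⊆ EN D false)
    (hco : ∀ k ∈ Tlf D false, co (fm (lt (kt k))) = !ev k.2) (a b c : ℂ) :
    VS D (Wz D (ZS X1 X2 Y1 Y2 x0 r)) P (tauP D false) a b c r x0 =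
      Ec (D.qJ D.a a b c) (ZF D) (fun S =>
        TotV (VF (FTr P O false (Tlf D false) (frz O S)) (EN D false) B (TTr (Tlf D false)) fm co) B
          (TTr (Tlf D false)) (fun e => slI a b c (kdl (refD D false) false e))) := by
  have e0 : tauP D false = D.a := rfl
  have e1 : VS D (Wz D (ZS X1 X2 Y1 Y2 x0 r)) P (tauP D false) a b c r x0 =
      Ec (D.qJ D.a a b c) (D.EJ D.a \ Fs D r x0) (fun ω => P (ω ∪ D.WJ D.a O.out.Wo)) := by
    unfold VS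
    rw [e0, opw_qJ]
    refine Ec_congr fun ω _ => hP.congr fun x y hz => ?_
    rw [mem_union, mem_union]
    exact or_congr Iff.rfl (wj_zone hO hw hz)
  rw [e1, line_Id (O := O) (hP.ign hw) (fun e _ _ => rfl)]
  exact line_I hB hco hl fun k hk => by rw [kdl_Tlf hk]

end line

/-! ### The bound for one window -/

theorem bd_I {η : ℝ} (hη : 0 < η) {Z1 : ℝ} (hZ : 0 ≤ Z1) : ∃ (K0 : ℝ) (R0 : ℕ), 0 ≤ K0 ∧ ∀ R : ℕ, R0 ≤ R →
    ∀ {D : Win} {n H W : ℤ} {A : ℤ → ℤ} {CL : ℤ → Bool} {X1 X2 Y1 Y2 x0 r K : ℤ} {O : OutB D}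
      {Φ : Finset (ℤ × ℤ) → ℂ} (_ : PosI η R D n H W A CL X1 X2 Y1 Y2 x0 r K)
      (_ : O.Wo = Wf D (ZS X1 X2 Y1 Y2 x0 r)) (_ : x0 ≤ D.w) (_ : LocZ Φ X1 X2 Y1 Y2 x0 r)
      (_ : ∀ k ∈ Tlf D false, Leaf Φ (ev k.2) (gp k.2))
      (_ : ∀ E W' : Finset (ℤ × ℤ), Tog E W' (ZS X1 X2 Y1 Y2 x0 r) (fun w => Φ (w ∪ W')))
      (_ : ∀ w, ‖Φ w‖ ≤ 1) (_ : KL H A (fun _ => W)) {a b c : ℂ}
      (_ : WOk (Z1 * (R : ℝ) ^ (-(2 / 3) : ℝ)) a b c),
      ‖VS D (Wz D (ZS X1 X2 Y1 Y2 x0 r)) Φ (tauP D false) a b c r x0‖ ≤ (2 * 26) ^ (ZF D).card * K0 := by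
  obtain ⟨K0, R0, hK, H0⟩ := bdVP_of inpPI η hη Z1 hZ
  refine ⟨K0, R0, hK, ?_⟩
  intro R hR D n H W A CL X1 X2 Y1 Y2 x0 r K O Φ G hO hw hP hl hT hΦ w0 a b c hwt
  have h1 := VS_lineW (D := D) (O := O) hP hO hw hl (B := LBA (refD D false) false (mW η R + 1))
      (fm := fmA (refD D false) false 2) (co := colp (refD D false)) (by
        intro e he
        obtain ⟨x, y, rfl⟩ := exists_lt (odd_TB he)
        exact mem_EN.2 (mem_LBA.1 he).1) (fun k hk => hcoI hk) a b c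
  rw [h1]
  refine Ec_norm_le (C := 26) (M := K0) (fun e _ => (qJ_26 hwt e).1) (fun e _ => (qJ_26 hwt e).2)
    (by norm_num) fun S hS => ?_
  have hc := G.csI (O := O) (S := S) (Φ := Φ) w0
  have hm := G.mem hO hS hT w0
  have key := H0 R hR _ hm 1 (fun e => slI a b c (kdl (refD D false) false e)) (xI_HV hΦ w0) fun e _ => by
    have hθ : Nr (Z1 * (R : ℝ) ^ (-(2 / 3) : ℝ)) 0 := Or.inr ⟨0, le_rfl, zero_le_one, by norm_num⟩
    cases kdl (refD D false) false e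
    · exact hwt.na
    · exact hθ
    · exact hwt.nb
    · exact hwt.nc
  rw [hc.tt, ← TTr_Tlf, hc.v, mul_one] at key
  exact key

/-! ### Over a compact set -/

/-- **The uniform bound of the world `false`.** -/
theorem bdV_false {C : CD} (hC : LowC C) (c0 : Bool) {Ψ : (NE → NE → Prop) → ℂ} (hΨ : ∀ a, ‖Ψ a‖ ≤ 1) :
    BdV C c0 Ψ false := by
  intro K hK hKc B hB
  obtain ⟨δ, hδ, n1, hgd⟩ := gd_K C c0 hK hKc
  set Q : ℝ := |(C.H : ℝ)| + |(C.W : ℝ) - C.LO| + 2 with hQ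
  have hQ0 : 2 ≤ Q := by
    have := abs_nonneg (C.H : ℝ)
    have := abs_nonneg ((C.W : ℝ) - C.LO)
    linarith
  set η : ℝ := min (min δ 1) (1 / Q) with hη'
  have hη : 0 < η := lt_min (lt_min hδ one_pos) (by positivity)
  have e1 : η ≤ δ := (min_le_left _ _).trans (min_le_left _ _)
  have e2 : η ≤ 1 := (min_le_left _ _).trans (min_le_right _ _)
  have e3 : η * Q ≤ 1 := by
    have : η ≤ 1 / Q := min_le_right _ _
    rwa [le_div_iff₀ (by linarith)] at this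
  obtain ⟨m1, hm1⟩ := exists_nat_gt (32 / η)
  obtain ⟨R1, hR1, Hw⟩ := wok_rapV hB
  obtain ⟨K0, R0, hK0, H⟩ := bd_I hη (Z1 := 16 * B ^ (2 / 3 : ℝ)) (by positivity)
  refine ⟨(2 * 26) ^ (8 * (3 * (C.H.toNat + 1)) + 4) * K0, max (max n1 m1) (max R0 ⌈R1⌉₊),
    fun m hm he h8 v hv u hu hu' => ?_⟩
  have k1 : n1 ≤ m := ((le_max_left _ _).trans (le_max_left _ _)).trans hm
  have k2 : m1 ≤ m := ((le_max_right _ _).trans (le_max_left _ _)).trans hm
  have k3 : R0 ≤ m := ((le_max_left _ _).trans (le_max_right _ _)).trans hm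
  have k4 : ⌈R1⌉₊ ≤ m := ((le_max_right _ _).trans (le_max_right _ _)).trans hm
  have k5 : R1 ≤ ((2 * m : ℕ) : ℝ) := by
    refine (Nat.le_ceil _).trans ?_
    exact_mod_cast k4.trans (by omega)
  have hwt := Hw _ k5 u hu hu'
  have hcast : (((2 * (m : ℤ) : ℤ)) : ℝ) = ((2 * m : ℕ) : ℝ) := by push_cast; rfl
  have hv' : lat v / (((2 * (m : ℤ) : ℤ) : ℝ) : ℂ) ∈ K := by rw [hcast]; exact hv
  obtain ⟨g, hM⟩ := hgd (2 * m) (by omega) he h8 v hv'
  set M : ℤ := ⌊δ * (((2 * (m : ℤ) : ℤ)) : ℝ)⌋ with hMd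
  have hm2 : 32 / η < m := hm1.trans_le (by exact_mod_cast k2)
  rw [div_lt_iff₀ hη] at hm2
  have hmp : (0 : ℝ) < ((2 * m : ℕ) : ℝ) := by
    push_cast
    by_contra hc
    push Not at hc
    nlinarith
  have hR : 64 ≤ η * ((2 * m : ℕ) : ℝ) := by push_cast; linarith
  have hb : ∀ x : ℝ, x ≤ Q → ((2 * m : ℕ) : ℝ) * x ≤ ((2 * m : ℕ) : ℝ) / η := by
    intro x hx
    rw [le_div_iff₀ hη, mul_assoc]
    refine mul_le_of_le_one_right hmp.le ?_
    calc x * η ≤ Q * η := mul_le_mul_of_nonneg_right hx hη.le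
      _ ≤ 1 := by linarith
  have G := posI_win hC g (η := η) (R := 2 * m) hR (by
      rw [hcast]
      exact mul_le_of_le_one_left hmp.le e2) (by
      have h5 : δ * (((2 * (m : ℤ) : ℤ)) : ℝ) = δ * ((2 * m : ℕ) : ℝ) := by rw [hcast]
      have h3 : η * ((2 * m : ℕ) : ℝ) ≤ δ * ((2 * m : ℕ) : ℝ) := mul_le_mul_of_nonneg_right e1 hmp.le
      have h4 : (0 : ℝ) ≤ δ * ((2 * m : ℕ) : ℝ) := by positivity
      rw [h5] at hM
      linarith) (by
      have h3 := hb (C.H : ℝ) (by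
        have := le_abs_self (C.H : ℝ)
        have := abs_nonneg ((C.W : ℝ) - C.LO)
        linarith)
      refine le_trans (le_of_eq ?_) h3
      push_cast
      ring) (by
      have h3 := hb ((C.W : ℝ) - C.LO + 1) (by
        have := le_abs_self ((C.W : ℝ) - C.LO)
        have := abs_nonneg (C.H : ℝ)
        linarith)
      refine le_trans ?_ h3
      have h4 : (1 : ℝ) ≤ ((2 * m : ℕ) : ℝ) := by
        have : (8 : ℝ) ≤ ((2 * (m : ℤ) : ℤ) : ℝ) := by exact_mod_cast h8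
        rw [hcast] at this
        linarith
      push_cast at h4 ⊢
      linarith)
  obtain ⟨O, hO⟩ := exists_outB (C.win (2 * m) he h8 (crz c0 v.2)) (Wf (C.win (2 * m) he h8 (crz c0 v.2))
    (ZS (bX1 C (2 * m)) (bX2 C (2 * m) c0 v.2) (bY1 (2 * m)) (bY2 C (2 * m)) v.1 v.2))
    fun x y h => (mem_Wf.1 h).2.1
  obtain ⟨w0⟩ := exists_KL G.co
  have hw : v.1 ≤ (C.win (2 * m) he h8 (crz c0 v.2)).w := by
    have m4 := g.m4
    have h := (g.dp false v.1 v.2 (by omega) (by omega) (by omega) (by omega)).2.2.2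
    rw [sh_false] at h
    omega
  have hP : LocZ (Ph C (2 * m) c0 v Ψ) (bX1 C (2 * m)) (bX2 C (2 * m) c0 v.2) (bY1 (2 * m))
      (bY2 C (2 * m)) v.1 v.2 := fun w => (zone_Phi C (2 * m) c0).inter
  have hK4 : 2 ≤ M + 4 := by have := g.m4; omega
  have hl : ∀ k ∈ Tlf (C.win (2 * m) he h8 (crz c0 v.2)) false, Leaf (Ph C (2 * m) c0 v Ψ)
      (ev k.2) (gp k.2) := fun k hk => leafI (zone_Phi C (2 * m) c0) G.str hK4 G.box G.hL hk
  have key := H (2 * m) (k3.trans (by omega)) G hO hw hP hl (fun E W => (zone_Phi C (2 * m) c0).tog E W)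
    (fun w => hΨ _) w0 hwt
  refine le_trans key (mul_le_mul_of_nonneg_right ?_ hK0)
  exact pow_le_pow_right₀ (by norm_num) card_win

end Pool.Agent.H20.W.BI
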