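import Mathlib
import Pool.Agent.H20.W.TopS
import Pool.Agent.H44.W.LinII
import Pool.Agent.H62.W.PtNatII
import Pool.Agent.H62.W.HvII
import Pool.Agent.H60.W.MemD
import Pool.Agent.H8.W.GdII
import Pool.Agent.H95.W.SeqE

set_option autoImplicit false
open Finset

/-! # Chart II: the line response of the world `true`

`pt_posII` : one position. `stPT_true` : `StPT PD true`. -/

namespace Pool.Agent.H20.W.SII

open Pool.Agent.Q1 (Ec)
open Pool.Agent.Q1.M4 (lat)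
open Pool.Agent.H33.Q1 (lt)
open Pool.Agent.H54.W (Win CD NE)
open Pool.Agent.H34.W (opw)
open Pool.Agent.H62.W
open Pool.Agent.H15.W (CaseV SgQ)
open Pool.Agent.H49.W (toM ClsM)
open Pool.Agent.H42.W (VF RB)
open Pool.Agent.H60.W.II
open Pool.Agent.H95.W.BrS
open Pool.Agent.H64.Q1 (wa)
open Pool.Agent.H32.W.Ab (uN)
open Pool.Agent.Q1.M6e.Wn (wS sz swn)
open Pool.Agent.H44.W
open G4

variable {C : CD} {n : ℤ} {c0 : Bool} {v : ℤ × ℤ} {he : n % 2 = 0} {h8 : 8 ≤ n} {a b : ℤ}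

/-- the weights of the unpaired tiles -/
lemma wal_le (N : ℕ) (x y : ℤ) : ‖Win.wal x y (wa (Real.pi - uN N))‖ ≤ 1 ∧
    ‖1 - Win.wal x y (wa (Real.pi - uN N))‖ ≤ 1 := by
  have hp := Real.pi_pos
  have e1 : ((Real.pi : ℂ) - uN N).re = Real.pi / 2 := by
    rw [Complex.sub_re, Pool.Agent.H95.W.SI.uN_re, Complex.ofReal_re]
    ring
  have k1 := Pool.Agent.Q1.M6e.norm_wa (z := (Real.pi : ℂ) - uN N) (by rw [e1]; linarith) (by rw [e1]; linarith)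
  have k2 := Pool.Agent.Q1.M6e.norm_one_sub_wa (z := (Real.pi : ℂ) - uN N) (by rw [e1]; linarith)
    (by rw [e1]; linarith)
  unfold Win.wal
  split_ifs
  · exact ⟨k1, k2⟩
  · rw [sub_sub_cancel]
    exact ⟨k2, k1⟩

/-- **One position.** -/
theorem pt_posII {η : ℝ} {R : ℕ} (G : GII (Dz C n c0 he h8 v.2) v.2 v.1 a b (-n) (yII C n) c0)
    (h1 : a + 8 ≤ (Dz C n c0 he h8 v.2).w) (h2 : 9 ≤ (Dz C n c0 he h8 v.2).h)
    (h3 : (Dz C n c0 he h8 v.2).w + 2 ≤ b) (hb : b ≤ n * C.W + n) {Ψ : (NE → NE → Prop) → ℂ}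
    (hΨ : ∀ R, ‖Ψ R‖ ≤ 1) (hs : ScD η R (G.rb h1 h2 h3)) {E : ℝ}
    (hnat : ∀ S : Finset (ℤ × ℤ),
      (∀ x y, lt (x, y) ∈ S → x = (Dz C n c0 he h8 v.2).w - 1 ∧ 0 ≤ y ∧ y < (Dz C n c0 he h8 v.2).h) →
      Disjoint ((EII (Dz C n c0 he h8 v.2) a c0).image (pl v.2)) S → ∀ Sg : Finset (ℤ × ℤ), ∀ s ⊆ arc4 true,
      ‖(toM (csII G h1 h2 h3 (Wz (Dz C n c0 he h8 v.2) (Zz C n c0 v)) S (Ph C n c0 v Ψ) Sg) (gII _)).T
        (wS ((toM (csII G h1 h2 h3 (Wz (Dz C n c0 he h8 v.2) (Zz C n c0 v)) S (Ph C n c0 v Ψ) Sg) (gII _)).ws s)) -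
        nS C n c0 v he h8 Ψ true s‖ ≤ E) :
    ∃ (σ : Type) (y : σ → ModG G4),
      PtD 4 E (arc4 true) hd4 (fun s => nS C n c0 v he h8 Ψ true s) (fun N => vS C n c0 v he h8 Ψ true N) y ∧
      ∀ i, ClsM PD 1 η R (y i) := by
  set D := Dz C n c0 he h8 v.2 with hD
  have g1 := G.r0
  have g2 := G.r1
  have hU : ∀ S ⊆ UII D v.2 c0, ∀ x y, lt (x, y) ∈ S → x = D.w - 1 ∧ 0 ≤ y ∧ y < D.h := by
    intro S hS x y h
    have := mem_UII.1 (hS h)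
    exact ⟨this.1, this.2.1, this.2.2.1⟩
  have hU2 : ∀ S ⊆ UII D v.2 c0, Disjoint ((EII D a c0).image (pl v.2)) S := fun S hS =>
    (disj_UII G).mono subset_union_right hS
  set Sg : Finset (ℤ × ℤ) → Finset (ℤ × ℤ) := fun S => SgQ (G.rb h1 h2 h3)
    (WtII D v.2 a c0 (ZQ a b (-n) (yII C n)) (Wz D (Zz C n c0 v)) S) with hSg
  set y : Finset (ℤ × ℤ) → ModG G4 := fun S => toM (csII G h1 h2 h3 (Wz D (Zz C n c0 v)) S
    (Ph C n c0 v Ψ) (Sg S)) (gII _) with hy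
  have key : PtD ((2 * 1) ^ (UII D v.2 c0).card) E (arc4 true) hd4
      (fun s => nS C n c0 v he h8 Ψ true s) (fun N => vS C n c0 v he h8 Ψ true N)
      (fun S : {S : Finset (ℤ × ℤ) // S ⊆ UII D v.2 c0} => y S.1) := by
    refine ptD_Ec (q := fun N => opw fun q => D.wA (fun _ => D.w) (wa (Real.pi - uN N))
      (wa (Real.pi - uN N + Real.pi / 2)) (wa (Real.pi - uN N - Real.pi / 2)) q.1 q.2) zero_le_one
      (fun S hS s hs' => hnat S (hU S hS) (hU2 S hS) (Sg S) s hs') (fun N _ e he' => ?_) fun N _ => ?_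
    · obtain ⟨x, z, rfl⟩ := Pool.Agent.H74.R45.exists_lt (odd_UII he')
      obtain ⟨rfl, k0, k1, -, -⟩ := mem_UII.1 he'
      rw [opw_w k0 k1]
      exact wal_le N _ _
    · have hR := remZ_z (he := he) (h8 := h8) G hb le_rfl le_rfl
      have hX := out_z (he := he) (h8 := h8) G hb
      have hDl : lt (D.w, v.2) ∈ Pool.Agent.H21.W.DR v.1 v.2 := by
        rw [Pool.Agent.H21.W.mem_DR]
        have := G.xa
        exact ⟨rfl, by omega⟩
      have k := linII (Ψ := Ψ) G hR hX h1 h2 h3 (Wo := Wz D (Zz C n c0 v)) Wz_out hDl (wa (Real.pi - uN N))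
        (wa (Real.pi - uN N + Real.pi / 2)) (wa (Real.pi - uN N - Real.pi / 2))
      unfold vS
      have e1 : tauP D true = fun _ => D.w := rfl
      rw [← hD, e1]
      refine k.trans (Pool.Agent.Q1.Ec_congr fun S _ => ?_)
      rw [a1_swn]
      exact (sz_II (Wo := Wz D (Zz C n c0 v)) (S := S) (Φ := Ph C n c0 v Ψ) (Sg := Sg S) hd4 N).symm
  refine ⟨_, _, key.mono ?_ le_rfl, fun S => ⟨_, gII _, mem_Ph G h1 h2 h3 hb ?_ (hU2 S.1 S.2) Ψ hs,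
    hv_II (fun w => hΨ _), rfl⟩⟩
  · have := card_UII (c0 := c0) g1 g2
    calc ((2 * 1 : ℝ)) ^ (UII D v.2 c0).card ≤ (2 * 1) ^ 2 := pow_le_pow_right₀ (by norm_num) this
      _ = 4 := by norm_num
  · exact hU S.1 S.2

/-- **The line response of the world `true`**, every functional bounded by one. -/
theorem pt_II {C : CD} (c0 : Bool) {Ψ : (NE → NE → Prop) → ℂ} (hΨ : ∀ a, ‖Ψ a‖ ≤ 1) :
    PTs PD C c0 Ψ true := by
  intro K hK hKc
  obtain ⟨L, α, hL, hα, n0, hnat⟩ := ptNatII C c0 hK hKc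
  obtain ⟨η0, h0, hgd⟩ := Pool.Agent.H8.W.gdII (c0 := c0) hK hKc
  refine ⟨η0, h0, fun η hη hη0 => ?_⟩
  obtain ⟨m1, hgd⟩ := hgd η hη hη0
  refine ⟨4, L, α, hL, hα, max n0 m1, fun m hm he h8 v hv => ?_⟩
  have k0 : n0 ≤ m := (le_max_left _ _).trans hm
  have k1 : m1 ≤ m := (le_max_right _ _).trans hm
  obtain ⟨G, h1, h2, h3, hs⟩ := hgd m k1 he h8 v hv
  have hcast : (((2 * (m : ℤ) : ℤ)) : ℝ) = ((2 * m : ℕ) : ℝ) := by push_cast; rfl
  have hv' : lat v / (((2 * (m : ℤ) : ℤ) : ℝ) : ℂ) ∈ K := by rw [hcast]; exact hv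
  refine pt_posII G h1 h2 h3 le_rfl hΨ hs fun S hS hS' Sg s hs' => ?_
  have Zc : ZcII C (2 * m) c0 v.2 (2 * (m : ℤ) * C.W - ⌈η * ((2 * m : ℕ) : ℝ)⌉)
      (2 * (m : ℤ) * C.W + 2 * (m : ℤ)) (-(2 * (m : ℤ))) (yII C (2 * m)) :=
    { xa := bX1_le G
      xb := bX2_ge
      ya := le_rfl
      yb := by unfold yII bY2; omega }
  have := hnat (2 * m) (by omega) he h8 v hv' Ψ hΨ _ _ _ _ Zc G h1 h2 h3 S hS hS' Sg s hs'
  rw [hcast] at this
  exact this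

/-- **`StPT PD true`.** -/
theorem stPT_true : StPT PD true := fun _ _ c0 θ => pt_II c0 (PsT_le θ)

end Pool.Agent.H20.W.SII
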