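import Mathlib
import Pool.Agent.H20.W.TopS
import Pool.Agent.H20.W.SeqII
import Pool.Agent.H95.W.SeqI
import Pool.Agent.H60.W.InpD
import Pool.Agent.H31.W.InstN
import Pool.Agent.H31.W.InstFT

set_option autoImplicit false

/-! # W-B: the S-property, what is left

`stS_left` : `StS` from chapters A and B. -/

namespace Pool.Agent.H20.W

open Pool.Agent.H15.W (orV fineVP_or)
open Pool.Agent.H95.W.SI (PI finePI)
open Pool.Agent.H60.W.II (PD finePD)

theorem stS_left (hab : StAB) : StS :=
  stS_top (fineVP_or finePI finePD) (Pool.Agent.H95.W.SI.stPT_false.mono fun _ _ _ h => Or.inl h)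
    (SII.stPT_true.mono fun _ _ _ h => Or.inr h) hab Pool.Agent.H31.W.stFT Pool.Agent.H31.W.stNat

end Pool.Agent.H20.W
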