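import Mathlib
import Pool.Agent.H69.W.TayK0
import Pool.Agent.H57.W.TayZ
import Pool.Agent.H81.W.OutI
import Pool.Agent.H76.W.ExitC
import Pool.Agent.H93.W.VBridge
import Pool.Agent.H24.W.EmS

set_option autoImplicit false
open Finset Metric Filter Topology

/-! # The Taylor coefficients for the canonical boxes, parity `e = 0`

`emH_pathB` : the first random label on the path of the target corner, if the window has another colour of the wall
tile of the row. `outTB` : the outside facts `Emf` of helper69 for the windows `rcol Dz r b`. `tayP_nil` : the Taylor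
coefficients, rows with `e = 0`. `tayZ_all` : both parities. -/

namespace Pool.Agent.H20.W

open Pool.Agent.H75.Perc hiding AR VV
open Pool.Agent.H75.TwoArm hiding EF
open Pool.Agent.Q1 Pool.Agent.H33.Q1
open Pool.Agent.Q1.M4 (lat)
open Pool.Agent.H74.R45 (exists_lt)
open Pool.Agent.H54.W (CD HWin Win HOut HPos Pos)
open Pool.Agent.H32.W.Bd (Zv)
open Pool.Agent.H32.W.Win (f2 orh)
open Pool.Agent.H76.W
open Pool.Agent.H42.Sp (Ix)
open Pool.Agent.H30.W (Slit SlitEnv ELz EUz RZ slitEnv_XTH)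
open Pool.Agent.H25.W (EH_toH WH_toH pos_of_toH rt_rt lt_rotL mem_rotL rotL_lt)
open Pool.Agent.H64.W (OutC NumS size_K)
open Pool.Agent.H81.W (OutZ DH DB emH emT emH_ETH fw_rot ctW_emT lt_emH tgtH labH)
open Pool.Agent.H85.W (BP rtW ctW Wo ow Fw)
open Pool.Agent.H93.W (rcol other_WR)
open Pool.Agent.H57.W (BPz Oz OzH ctz hin_z TayP TayZ tayZ_zero)
open Pool.Agent.H69.W (Emf tayK0_f2)

variable {C : CD} {c0 : Bool}

/-- the window is the window with its own colour of the wall tile -/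
lemma rcol_self (D : Win) (r : ℤ) : rcol D r (D.cr r) = D := by
  have h : (fun y => if y = r then D.cr r else D.cr y) = D.cr := by
    funext y
    split_ifs with h
    · rw [h]
    · rfl
  unfold rcol
  rw [h]

/-- the colour of the wall tile changes no other open label -/
lemma WJ_off {D : Win} {r : ℤ} {b : Bool} {τ : ℤ → ℤ} {Wo : Finset (ℤ × ℤ)} {e : ℤ × ℤ} (h0 : 0 ≤ r)
    (h1 : r < D.h) (he : e ≠ lt (D.w, r)) : e ∈ D.WJ τ Wo ↔ e ∈ (rcol D r b).WJ τ Wo := by
  have key : e ∈ D.WR τ ↔ e ∈ (rcol D r b).WR τ := by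
    have h3 : (rcol D r (D.cr r)).WR τ = D.WR τ := by rw [rcol_self]
    rw [← h3]
    constructor
    · intro h
      obtain ⟨x, y, rfl⟩ := exists_lt (Win.odd_TS _ h)
      exact (other_WR h0 h1 fun h4 => he (by rw [h4.1, h4.2])).1 h
    · intro h
      obtain ⟨x, y, rfl⟩ := exists_lt (Win.odd_TS _ h)
      exact (other_WR h0 h1 fun h4 => he (by rw [h4.1, h4.2])).1 h
  unfold Win.WJ
  rw [mem_union, mem_union, key]

/-- **The first random label on the path of the target corner**, the window with the colour `b` of the wall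
tile of the row. -/
theorem emH_pathB (θ : Th C c0) (B : BP C c0) {cr : ℤ → Bool} {b : Bool} {τ : ℤ → ℤ}
    (H : HPos (rcol (DB B cr) B.r b).toH τ)
    (hin : ∀ x y, (DB B cr).InZ x y → (ow θ B).Box x y) (hcr : c0 = false → cr 0 = false)
    {P : Finset Ix} (hP : ∀ k ∈ P, CPH (rcol (DB B cr) B.r b).toH τ k)
    (O : HOut (rcol (DB B cr) B.r b).toH)
    (hWo : O.Wo = (Wo θ B (DB B cr) (DB B cr).fill).map rotL) {X : Env} {W : Finset (ℤ × ℤ)}
    (hout : X.out = nx W)
    (hE : ∀ e ∈ X.E, e ∈ ETH (rcol (DB B cr) B.r b).toH τ P ∨ e = lt (-B.r - 1, (DB B cr).w))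
    (hW : ∀ e, e ≠ lt (-B.r - 1, (DB B cr).w) →
      (e ∈ W ↔ e ∈ WTH (rcol (DB B cr) B.r b).toH τ P O.Wo)) :
    ∃ n, (∀ i < n, lab (X.out^[i] (rotc (ctW θ B))) ∉ X.E) ∧
      lab (X.out^[n] (rotc (ctW θ B))) = lt (emH θ B τ) := by
  have H' : Pos (rcol (DB B cr) B.r b) (Win.rt τ) := pos_of_toH H
  have H'' : Pos (DB B cr) (Win.rt τ) := ⟨H'.lo, H'.hi, H'.up, H'.dn⟩
  obtain ⟨c, h1, h2⟩ := ctW_emT θ B H'' hin hcr
  have eE : (rcol (DB B cr) B.r b).toH.EH τ = ((DB B cr).EJ (Win.rt τ)).map rotL := by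
    have := EH_toH H'
    rwa [rt_rt] at this
  have eW : (rcol (DB B cr) B.r b).toH.WH τ O.Wo =
      ((rcol (DB B cr) B.r b).WJ (Win.rt τ) (Wo θ B (DB B cr) (DB B cr).fill)).map rotL := by
    have := WH_toH (D := rcol (DB B cr) B.r b) (τ := Win.rt τ) hWo
    rwa [rt_rt] at this
  have e1 : lt (-B.r - 1, (DB B cr).w) = rotL (lt ((DB B cr).w, B.r)) := by rw [rotL_lt]
  have r0 := B.r0
  have r1 := B.r1
  have key0 : ∀ e, e ≠ lt (-B.r - 1, (DB B cr).w) →
      (e ∈ ((DB B cr).WJ (Win.rt τ) (Wo θ B (DB B cr) (DB B cr).fill)).map rotL ↔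
        e ∈ ((rcol (DB B cr) B.r b).WJ (Win.rt τ) (Wo θ B (DB B cr) (DB B cr).fill)).map rotL) := by
    intro e he
    rw [Finset.mem_map, Finset.mem_map]
    refine exists_congr fun e' => and_congr_left fun h3 => ?_
    exact WJ_off r0.le (by change B.r < B.n * C.H; omega) fun h4 => he (by rw [e1, ← h3, h4])
  have key : Fw W {e | e ∉ (rcol (DB B cr) B.r b).toH.EH τ ∧ e ≠ lt (-B.r - 1, (DB B cr).w)}
      (rotc (ctW θ B)) (rotc c) := by
    refine fw_rot h1 (fun e he => ?_) fun e he => ?_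
    · refine ⟨fun h => ?_, fun h => ?_⟩
      · rw [eE] at h
        exact he.1 ((mem_map' rotL).1 h)
      · rw [e1] at h
        exact he.2 (rotL.injective h)
    · rw [hW e he.2, key0 e he.2, ← eW]
      unfold WTH
      rw [mem_union, or_iff_left (fun h => he.1 (OTp_subH H O hP h))]
  obtain ⟨n, k1, k2⟩ := key
  refine ⟨n, fun i hi h => ?_, ?_⟩
  · rw [hout] at h
    have h3 := k2 i hi
    rcases hE _ h with h4 | h4
    · exact h3.1 (Pool.Agent.H76.W.ETH_sub h4)
    · exact h3.2 h4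
  · rw [hout, k1, SymmAux.lab_rot, h2, lt_emH]

/-- **The outside facts**, parity `e = 0`, the window with the colour `b` of the wall tile of the row. -/
theorem outTB (θ : Th C c0) (B : BP C c0) {cr : ℤ → Bool} (hcr : ∀ y, y ≠ B.r → cr y = crz c0 B.r y)
    (hin : ∀ x y, (DB B cr).InZ x y → (ow θ B).Box x y) (hp : (B.X2 - B.n * C.W) % 2 = 0) (b : Bool)
    (O : HOut (rcol (DB B cr) B.r b).toH)
    (hWo : O.Wo = (Wo θ B (DB B cr) (DB B cr).fill).map rotL)
    (hc : O.c0 = rotc (rtW B)) (S : Slit (rcol (DB B cr) B.r b).toH) (hS : S.e = 0)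
    (hxs : S.xs = -B.r - 1)
    (h1 : lt (emH θ B S.τ) ∉ RZ S.N S.M S.x1 S.y0 S.c0)
    (h2 : lt (emH θ B S.τ) ∉ ELz S ∅ ∪ EUz S ∅) : Emf O S (rotc (ctW θ B)) := by
  have hP := cphs_mem (D := (rcol (DB B cr) B.r b).toH) S.pos
  have hr := B.r0
  have hET := emH_ETH (cr := fun y => if y = B.r then b else cr y) θ B S.pos hP
  have hX : ExitC θ B (rcol (DB B cr) B.r b) (DB B cr).fill (rcol (DB B cr) B.r b).w := by
    have := exitC_fill (θ := θ) (B := B) (cr := fun y => if y = B.r then b else cr y)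
      (fun y hy => by rw [if_neg hy]; exact hcr y hy) cr hcr hin (e := 0) (by norm_num)
      (by push_cast; rw [add_zero]; exact hp)
    rw [Nat.cast_zero, add_zero] at this
    exact this
  refine ⟨lt (emH θ B S.τ), slitEnv_XTH S hS O _ hP hET h1 h2,
    rootS_XTH (B := B) (θ := θ) (f := (DB B cr).fill) S hS hX hxs O hWo hc hP,
    tgtH (cr := fun y => if y = B.r then b else cr y) θ B hin, ?_⟩
  exact emH_pathB θ B S.pos hin
    (fun h => by rw [hcr 0 (by omega)]; unfold crz; rw [if_pos hr, h]) hP O hWo rfl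
    (fun e he => Or.inl he) fun e _ => Iff.rfl

/-- **The Taylor coefficients**, rows with `e = 0`. -/
theorem tayP_nil (θ : Th C c0) : TayP θ (if c0 then 1 else 0) := by
  intro K hK hKc η hη k ε hε
  obtain ⟨n0, H⟩ := tayK0_f2 C hK hKc hη k hε
  refine ⟨n0, fun m hm he h8 v hv hvZ hpar hr => ?_⟩
  have hcast : (((2 * (m : ℤ) : ℤ)) : ℝ) = ((2 * m : ℕ) : ℝ) := by push_cast; ring
  have key := H (2 * (m : ℤ)) (by omega) he h8 (crz c0 v.2) v (by rw [hcast]; exact hv) hvZ (!c0) c0
    (fun y hy => by unfold crz; rw [if_neg (by omega)]) (fun y hy => by unfold crz; rw [if_pos hy])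
    (by
      cases c0
      · simp only [Bool.false_eq_true, if_false] at hpar
        simp only [Bool.not_false, iff_true, Bool.false_eq_true, iff_false]
        omega
      · simp only [if_true] at hpar
        simp only [Bool.not_true, Bool.false_eq_true, iff_false, iff_true]
        omega)
    (OzH he h8 hr θ) (ctz he h8 hr θ)
    (labH θ (BPz C c0 he h8 hr) (hin_z he h8 hr θ))
    (fun b S L s1 s2 s3 _ _ s6 => by
      have e1 := Pool.Agent.H24.W.emH_R (cr := fun y => if y = v.2 then b else crz c0 v.2 y) θ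
        (BPz C c0 he h8 hr) s6 S.τ
      have e2 := Pool.Agent.H24.W.emH_B (cr := fun y => if y = v.2 then b else crz c0 v.2 y) θ
        (BPz C c0 he h8 hr) s6 S.τ ∅
      refine outTB θ (BPz C c0 he h8 hr) (cr := crz c0 v.2) (fun _ _ => rfl) (hin_z he h8 hr θ) ?_ b
        (orh (OzH he h8 hr θ) v.2 b) rfl rfl S s3 s1 e1 e2
      have h3 := (BPz C c0 he h8 hr).par
      have h4 : (BPz C c0 he h8 hr).r = v.2 := rfl
      have h5 : (BPz C c0 he h8 hr).n = 2 * (m : ℤ) := rfl
      rw [h4] at h3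
      rw [h5]
      cases c0
      · simp only [Bool.false_eq_true, if_false] at h3 hpar
        omega
      · simp only [if_true] at h3 hpar
        omega)
  rw [hcast] at key
  exact key

/-- **The Taylor coefficients of `fz` are small off the thin set.** -/
theorem tayZ_all (θ : Th C c0) : TayZ θ := tayZ_zero θ (tayP_nil θ)

end Pool.Agent.H20.W
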