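import Mathlib
import Pool.Agent.H20.W.StFin
import Pool.Agent.H20.W.BdI
import Pool.Agent.H20.W.TayKz0
import Pool.Agent.H44.W.StABf

set_option autoImplicit false

/-! # W-B: the S-property

`stAB` : chapters A and B. `stS` : the S-property, without hypotheses. -/

namespace Pool.Agent.H20.W

/-- **Chapters A and B.** -/
theorem stAB : StAB :=
  Pool.Agent.H44.W.stAB_z (fun _ hC c0 θ => BI.bdV_false hC c0 (PsT_le θ)) fun _ _ _ θ => tayZ_all θ

/-- **The S-property.** -/
theorem stS : StS := stS_left stAB

end Pool.Agent.H20.W
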